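import Mathlib

open Finset

namespace Pool.Agent.H.MP_def192_nt

lemma kraft (D : Finset ℕ) (x : ℕ → ℝ) (hx : ∀ p, 0 ≤ x p) (hs : ∑ p ∈ D, x p ≤ 1) (k : ℕ) :
    ∀ F : Finset (Finset ℕ), (∀ q ∈ F, q ⊆ D ∧ q.card ≤ k) →
      (∀ q ∈ F, ∀ r ∈ F, q ⊆ r → q = r) → ∑ q ∈ F, (q.card.factorial : ℝ) * ∏ p ∈ q, x p ≤ 1 := by
  have base : ∀ F : Finset (Finset ℕ), (∀ q ∈ F, q = ∅) →
      ∑ q ∈ F, (q.card.factorial : ℝ) * ∏ p ∈ q, x p ≤ 1 := by
    intro F h
    calc _ ≤ ∑ q ∈ ({∅} : Finset (Finset ℕ)), (q.card.factorial : ℝ) * ∏ p ∈ q, x p :=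
          sum_le_sum_of_subset_of_nonneg (fun q hq => by simp [h q hq]) fun q _ _ =>
            mul_nonneg (by positivity) (prod_nonneg fun p _ => hx p)
      _ = 1 := by simp
  induction k with
  | zero => exact fun F h _ => base F fun q hq => card_eq_zero.1 (by have := (h q hq).2; omega)
  | succ k ih =>
    intro F h ha
    by_cases e : ∅ ∈ F
    · exact base F fun q hq => (ha _ e _ hq (empty_subset _)).symm
    have h1 : ∀ q ∈ F, (q.card.factorial : ℝ) * ∏ p ∈ q, x p = ∑ p ∈ D, if p ∈ q then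
        x p * (((q.erase p).card.factorial : ℝ) * ∏ p ∈ q.erase p, x p) else 0 := by
      intro q hq
      rw [sum_ite_mem, inter_eq_right.2 (h q hq).1]
      have : ∀ p ∈ q, x p * (((q.erase p).card.factorial : ℝ) * ∏ p ∈ q.erase p, x p) =
          ((q.card - 1).factorial : ℝ) * ∏ p ∈ q, x p := by
        intro p hp
        rw [card_erase_of_mem hp, ← mul_prod_erase q x hp]; ring
      rw [sum_congr rfl this, sum_const, nsmul_eq_mul, ← mul_assoc]
      have : 0 < q.card := card_pos.2 (nonempty_iff_ne_empty.2 fun c => e (c ▸ hq))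
      rw [← Nat.mul_factorial_pred this.ne']
      push_cast; rfl
    rw [sum_congr rfl h1, sum_comm]
    refine le_trans (sum_le_sum fun p _ => ?_) hs
    rw [← sum_filter, ← mul_sum]
    refine mul_le_of_le_one_right (hx p) ?_
    have inj : Set.InjOn (fun q : Finset ℕ => q.erase p) (F.filter (p ∈ ·)) := by
      intro q hq r hr c
      simp only [coe_filter, Set.mem_setOf_eq] at hq hr c
      rw [← insert_erase hq.2, ← insert_erase hr.2, c]
    rw [← sum_image (f := fun q => (q.card.factorial : ℝ) * ∏ p ∈ q, x p) inj]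
    refine ih _ ?_ ?_
    · intro q hq
      obtain ⟨r, hr, rfl⟩ := mem_image.1 hq
      obtain ⟨h1, h2⟩ := mem_filter.1 hr
      exact ⟨(erase_subset _ _).trans (h r h1).1, by
        rw [card_erase_of_mem h2]; have := (h r h1).2; omega⟩
    · intro q hq q' hq' c
      obtain ⟨r, hr, rfl⟩ := mem_image.1 hq
      obtain ⟨r', hr', rfl⟩ := mem_image.1 hq'
      obtain ⟨h1, h2⟩ := mem_filter.1 hr
      obtain ⟨h3, h4⟩ := mem_filter.1 hr'
      rw [ha r h1 r' h3 (by
        rw [← insert_erase h2, ← insert_erase h4]; exact insert_subset_insert _ c)]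

lemma anti (D : Finset ℕ) (x : ℕ → ℝ) (hx : ∀ p, 0 ≤ x p) {l β : ℝ} (hl : 0 < l)
    (hs : ∑ p ∈ D, x p ≤ l) (hβ : ∀ j : ℕ, l ^ j / j.factorial ≤ β) (F : Finset (Finset ℕ))
    (h : ∀ q ∈ F, q ⊆ D) (ha : ∀ q ∈ F, ∀ r ∈ F, q ⊆ r → q = r) :
    ∑ q ∈ F, ∏ p ∈ q, x p ≤ β := by
  have k := kraft D (fun p => x p / l) (fun p => div_nonneg (hx p) hl.le)
    (by rw [← sum_div, div_le_one hl]; exact hs) D.card F
    (fun q hq => ⟨h q hq, card_le_card (h q hq)⟩) ha
  have b0 : 0 ≤ β := le_trans (by positivity) (hβ 0)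
  refine le_trans ?_ (mul_le_of_le_one_right b0 k)
  rw [mul_sum]
  refine sum_le_sum fun q _ => ?_
  have p0 : 0 ≤ ∏ p ∈ q, x p := prod_nonneg fun p _ => hx p
  rw [prod_div_distrib, prod_const]
  calc _ = l ^ q.card / q.card.factorial * (q.card.factorial * ((∏ p ∈ q, x p) / l ^ q.card)) := by
        field_simp
    _ ≤ _ := by gcongr; exact hβ _

lemma cb (j : ℕ) : j.centralBinom ^ 2 * (2 * j + 1) ≤ 16 ^ j := by
  induction j with
  | zero => simp
  | succ j ih =>
    have h := Nat.succ_mul_centralBinom_succ j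
    refine Nat.le_of_mul_le_mul_left ?_ (show 0 < (j + 1) ^ 2 by positivity)
    calc _ = ((j + 1) * (j + 1).centralBinom) ^ 2 * (2 * j + 3) := by ring
      _ = (j.centralBinom ^ 2 * (2 * j + 1)) * (4 * (2 * j + 1) * (2 * j + 3)) := by rw [h]; ring
      _ ≤ 16 ^ j * (16 * (j + 1) ^ 2) := Nat.mul_le_mul ih (by nlinarith)
      _ = _ := by ring

lemma pois {ε : ℝ} (hε : 0 < ε) : ∃ l0 : ℝ, ∀ l ≥ l0, 0 < l ∧
    ∀ j : ℕ, l ^ j / j.factorial ≤ ε * Real.exp l := by
  obtain ⟨J, hJ⟩ := exists_nat_ge (1 / ε ^ 4)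
  refine ⟨2 * (2 ^ J / ε), fun l hl => ?_⟩
  have l0 : 0 < l := lt_of_lt_of_le (by positivity) hl
  refine ⟨l0, fun j => ?_⟩
  rcases le_total j J with c | c
  · have h1 := Real.pow_div_factorial_le_exp (l / 2) (by positivity) j
    have h2 : (2 : ℝ) ^ j ≤ 2 ^ J := pow_le_pow_right₀ (by norm_num) c
    have h3 : (2 : ℝ) ^ J ≤ ε * Real.exp (l / 2) := by
      have := Real.add_one_le_exp (l / 2)
      rw [← div_le_iff₀' hε]; linarith
    calc _ = 2 ^ j * ((l / 2) ^ j / j.factorial) := by rw [div_pow]; field_simp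
      _ ≤ (ε * Real.exp (l / 2)) * Real.exp (l / 2) := by gcongr; linarith
      _ = _ := by rw [mul_assoc, ← Real.exp_add]; ring_nf
  · have h1 := Real.pow_div_factorial_le_exp (2 * l) (by positivity) (2 * j)
    have h2 : (j.centralBinom : ℝ) ^ 2 * (2 * j + 1) ≤ 16 ^ j := by exact_mod_cast cb j
    have h3 : ((2 * j).factorial : ℝ) = j.centralBinom * j.factorial * j.factorial := by
      have := Nat.choose_mul_factorial_mul_factorial (show j ≤ 2 * j by omega)
      rw [show 2 * j - j = j by omega] at this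
      rw [← this]; push_cast; rfl
    have h4 : (1 : ℝ) ≤ ε ^ 4 * (2 * j + 1) := by
      rw [div_le_iff₀' (by positivity)] at hJ
      have : (J : ℝ) ≤ j := by exact_mod_cast c
      have : (0 : ℝ) ≤ j := by positivity
      refine hJ.trans (by gcongr; linarith)
    have c0 : (0 : ℝ) < j.centralBinom := by exact_mod_cast j.centralBinom_pos
    refine le_of_pow_le_pow_left₀ (n := 4) (by norm_num) (by positivity) ?_
    have h5 : (l ^ j / j.factorial) ^ 4 * 16 ^ j =
        ((2 * l) ^ (2 * j) / (2 * j).factorial) ^ 2 * j.centralBinom ^ 2 := by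
      rw [h3, mul_pow 2, show (16 : ℝ) ^ j = (2 ^ (2 * j)) ^ 2 by
        rw [← pow_mul, show 2 * j * 2 = 4 * j by ring, pow_mul]; norm_num]
      field_simp
      ring
    refine le_of_mul_le_mul_right ?_ (show (0 : ℝ) < 16 ^ j by positivity)
    rw [h5]
    calc _ ≤ Real.exp (2 * l) ^ 2 * (j.centralBinom ^ 2 * (ε ^ 4 * (2 * j + 1))) := by
          gcongr; exact le_mul_of_one_le_right (by positivity) h4
      _ = (ε * Real.exp l) ^ 4 * (j.centralBinom ^ 2 * (2 * j + 1)) := by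
          rw [two_mul l, Real.exp_add]; ring
      _ ≤ _ := by gcongr

lemma primesD {ε : ℝ} (hε : 0 < ε) : ∃ D : Finset ℕ, (∀ p ∈ D, p.Prime) ∧
    ∀ F : Finset (Finset ℕ), (∀ q ∈ F, q ⊆ D) → (∀ q ∈ F, ∀ r ∈ F, q ⊆ r → q = r) →
      ∑ q ∈ F, ∏ p ∈ q, (1 / p : ℝ) ≤ ε * ∏ p ∈ D, (1 + 1 / p : ℝ) := by
  obtain ⟨l0, h0⟩ := pois (show 0 < ε / Real.exp 2 by positivity)
  obtain ⟨D, hD, hl⟩ : ∃ D : Finset ℕ, (∀ p ∈ D, p.Prime) ∧ l0 ≤ ∑ p ∈ D, (1 / p : ℝ) := by
    by_contra hc
    push Not at hc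
    refine Nat.Primes.not_summable_one_div (summable_of_sum_le (c := l0) (fun p => by positivity)
      fun s => ?_)
    have := hc (s.map ⟨Subtype.val, Subtype.val_injective⟩) (by
      intro p hp; obtain ⟨q, -, rfl⟩ := mem_map.1 hp; exact q.2)
    rw [sum_map] at this
    exact this.le
  obtain ⟨h1, h2⟩ := h0 _ hl
  refine ⟨D, hD, fun F h ha => (anti D _ (fun p => by positivity) h1 le_rfl h2 F h ha).trans ?_⟩
  have h3 : ∑ p ∈ D, (1 / (p : ℝ) ^ 2) ≤ 2 := by
    refine (sum_le_hasSum D (fun _ _ => by positivity) hasSum_zeta_two).trans ?_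
    have := Real.pi_lt_d2; have := Real.pi_pos; nlinarith
  rw [div_mul_eq_mul_div, mul_div_assoc, ← Real.exp_sub]
  gcongr
  calc _ ≤ Real.exp (∑ p ∈ D, (1 / p - 1 / (p : ℝ) ^ 2)) := by
        rw [sum_sub_distrib]; gcongr
    _ ≤ _ := by
        rw [Real.exp_sum]
        refine prod_le_prod (fun _ _ => by positivity) fun p _ => ?_
        have x0 : (0 : ℝ) ≤ 1 / p := by positivity
        rw [← one_div_pow]
        generalize (1 / p : ℝ) = x at x0
        have := Real.add_one_le_exp (-(x - x ^ 2))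
        have e := Real.exp_pos (x - x ^ 2)
        have e2 : Real.exp (x - x ^ 2) * Real.exp (-(x - x ^ 2)) = 1 := by
          rw [← Real.exp_add]; simp
        have : 1 ≤ (1 + x) * Real.exp (-(x - x ^ 2)) := by nlinarith [pow_nonneg x0 3]
        nlinarith

def Prim (A : Finset ℕ) : Prop := ∀ a ∈ A, ∀ b ∈ A, a ∣ b → a = b

lemma fac {u : ℕ} (hu : u ≠ 0) {S : Finset ℕ} (hS : ∀ p ∈ S, p.Prime) (p : ℕ) :
    (u * ∏ q ∈ S, q).factorization p = u.factorization p + if p ∈ S then 1 else 0 := by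
  rw [Nat.factorization_mul hu (prod_ne_zero_iff.2 fun q hq => (hS q hq).ne_zero),
    Nat.factorization_prod fun q hq => (hS q hq).ne_zero, Finsupp.add_apply, Finsupp.finset_sum_apply,
    sum_congr rfl fun q hq => by rw [(hS q hq).factorization, Finsupp.single_apply]]
  simp

lemma behr {ε : ℝ} (hε : 0 < ε) : ∃ P : ℕ, 0 < P ∧ ∀ A M : Finset ℕ, Prim A → 0 ∉ A →
    (∀ a ∈ A, ∀ m, a ≤ m * P → m ≤ a * P → m ∈ M) →
      ∑ a ∈ A, (1 / a : ℝ) ≤ ε * ∑ m ∈ M, (1 / m : ℝ) := by
  obtain ⟨D, hD, h⟩ := primesD hε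
  have pos : ∀ S ⊆ D, 0 < ∏ q ∈ S, q := fun S hS => prod_pos fun q hq => (hD q (hS hq)).pos
  have le : ∀ S ⊆ D, ∏ q ∈ S, q ≤ ∏ q ∈ D, q := fun S hS =>
    Nat.le_of_dvd (pos D subset_rfl) (prod_dvd_prod_of_subset _ _ _ hS)
  refine ⟨∏ q ∈ D, q, pos D subset_rfl, fun A M hA h0 hM => ?_⟩
  let Q : ℕ → Finset ℕ := fun a => D.filter fun p => Odd (a.factorization p)
  let u : ℕ → ℕ := fun a => a / ∏ q ∈ Q a, q
  have QD : ∀ a, Q a ⊆ D := fun a => filter_subset _ _
  have e : ∀ a, u a * ∏ q ∈ Q a, q = a := fun a => Nat.div_mul_cancel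
    (prod_primes_dvd a (fun p hp => (hD p (QD a hp)).prime) fun p hp =>
      Nat.dvd_of_factorization_pos (mem_filter.1 hp).2.pos.ne')
  have u0 : ∀ a ∈ A, u a ≠ 0 := fun a ha c => by
    have := e a; rw [c, zero_mul] at this; exact h0 (this ▸ ha)
  have ev : ∀ a ∈ A, ∀ p ∈ D, Even ((u a).factorization p) := by
    intro a ha p hp
    have := fac (u0 a ha) (fun q hq => hD q (QD a hq)) p
    rw [e a] at this
    simp only [Q, mem_filter, hp, true_and] at this
    split_ifs at this with c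
    · rw [this] at c; simpa [parity_simps] using c
    · rw [this] at c; simpa using c
  have key : ∀ a ∈ A, ∀ S ⊆ D, Q (u a * ∏ q ∈ S, q) = S := by
    intro a ha S hS
    ext p
    simp only [Q, mem_filter]
    rw [fac (u0 a ha) (fun q hq => hD q (hS hq))]
    constructor
    · rintro ⟨h1, h2⟩
      by_contra c
      simp only [c, if_false, add_zero] at h2
      exact Nat.not_even_iff_odd.2 h2 (ev a ha p h1)
    · intro c
      exact ⟨hS c, by simpa [c, parity_simps] using ev a ha p (hS c)⟩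
  rw [← sum_fiberwise_of_maps_to (g := u) (t := A.image u) fun a ha => mem_image_of_mem _ ha]
  calc _ ≤ ∑ v ∈ A.image u, 1 / (v : ℝ) * (ε * ∏ p ∈ D, (1 + 1 / p : ℝ)) := by
        refine sum_le_sum fun v _ => ?_
        have inj : Set.InjOn Q (A.filter (u · = v)) := by
          intro a ha b hb c
          simp only [coe_filter, Set.mem_setOf_eq] at ha hb
          rw [← e a, ← e b, c, ha.2, hb.2]
        refine le_trans (le_of_eq ?_) (mul_le_mul_of_nonneg_left
          (h ((A.filter (u · = v)).image Q) ?_ ?_) (by positivity))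
        · rw [sum_image inj, mul_sum]
          refine sum_congr rfl fun a ha => ?_
          rw [← (mem_filter.1 ha).2]
          conv_lhs => rw [← e a]
          push_cast
          rw [prod_div_distrib]; simp [mul_comm]
        · intro q hq; obtain ⟨a, -, rfl⟩ := mem_image.1 hq; exact QD a
        · intro q hq r hr c
          obtain ⟨a, ha, rfl⟩ := mem_image.1 hq
          obtain ⟨b, hb, rfl⟩ := mem_image.1 hr
          rw [mem_filter] at ha hb
          rw [hA a ha.1 b hb.1 (by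
            rw [← e a, ← e b, ha.2, hb.2]
            simpa [key, e] using mul_dvd_mul_left v (prod_dvd_prod_of_subset _ _ _ c))]
    _ = ε * ∑ z ∈ A.image u ×ˢ D.powerset, (1 / (z.1 * ∏ q ∈ z.2, q : ℕ) : ℝ) := by
        rw [sum_product, mul_sum, prod_one_add]
        refine sum_congr rfl fun v _ => ?_
        rw [mul_left_comm, mul_sum]
        congr 1
        refine sum_congr rfl fun S _ => ?_
        push_cast
        rw [prod_div_distrib]; simp [mul_comm]
    _ ≤ _ := by
        gcongr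
        have inj : Set.InjOn (fun z : ℕ × Finset ℕ => z.1 * ∏ q ∈ z.2, q)
            (A.image u ×ˢ D.powerset : Finset _) := by
          rintro ⟨v, S⟩ hz ⟨w, T⟩ hw c
          simp only [coe_product, Set.mem_prod, mem_coe, mem_image, mem_powerset] at hz hw c
          obtain ⟨⟨a, ha, rfl⟩, hS⟩ := hz
          obtain ⟨⟨b, hb, rfl⟩, hT⟩ := hw
          have : S = T := by rw [← key a ha S hS, c, key b hb T hT]
          subst this
          rw [Nat.eq_of_mul_eq_mul_right (pos S hS) c]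
        rw [← sum_image (f := fun m : ℕ => (1 / m : ℝ)) inj]
        refine sum_le_sum_of_subset_of_nonneg (fun m hm => ?_) fun _ _ _ => by positivity
        obtain ⟨⟨v, S⟩, hz, rfl⟩ := mem_image.1 hm
        simp only [mem_product, mem_image, mem_powerset] at hz
        obtain ⟨⟨a, ha, rfl⟩, hS⟩ := hz
        refine hM a ha _ ?_ ?_
        · conv_lhs => rw [← e a]
          exact Nat.mul_le_mul (Nat.le_mul_of_pos_right _ (pos S hS)) (le _ (QD a))
        · exact Nat.mul_le_mul (Nat.div_le_self _ _) (le _ hS)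

end Pool.Agent.H.MP_def192_nt
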