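import Pool.Agent.H.MP_def192_nt.A

open Finset

namespace Pool.Agent.H.MP_def192_nt

noncomputable def S (σ : ℝ) (A : Finset ℕ) : ℝ := ∑ a ∈ A, (a : ℝ) ^ (-σ)

lemma S_nonneg (σ : ℝ) (A : Finset ℕ) : 0 ≤ S σ A := sum_nonneg fun _ _ => by positivity

lemma S_mono (σ : ℝ) {A B : Finset ℕ} (h : A ⊆ B) : S σ A ≤ S σ B :=
  sum_le_sum_of_subset_of_nonneg h fun _ _ _ => by positivity

lemma T_le {σ : ℝ} (h0 : 0 ≤ σ) (h1 : σ < 1) (x : ℕ) :
    (1 - σ) * S σ (Icc 1 x) ≤ (x : ℝ) ^ (1 - σ) := by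
  induction x with
  | zero => simp [S]; positivity
  | succ x ih =>
    unfold S at *
    rw [sum_Icc_succ_top (by omega), mul_add]
    push_cast
    have p : (0 : ℝ) < x + 1 := by positivity
    have a := rpow_one_add_le_one_add_mul_self (s := -(1 / (x + 1 : ℝ))) (p := 1 - σ)
      (by rw [neg_le_neg_iff, div_le_one p]; linarith) (by linarith) (by linarith)
    have e : (x : ℝ) = (x + 1) * (1 + -(1 / (x + 1))) := by field_simp; ring
    have b : (x : ℝ) ^ (1 - σ) = (x + 1) ^ (1 - σ) * (1 + -(1 / (x + 1 : ℝ))) ^ (1 - σ) := by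
      rw [← Real.mul_rpow p.le (by
        rw [← sub_eq_add_neg, sub_nonneg, div_le_one p]; linarith), ← e]
    have c : (x + 1 : ℝ) ^ (1 - σ) = (x + 1) * (x + 1) ^ (-σ) := by
      rw [sub_eq_add_neg, Real.rpow_add p, Real.rpow_one]
    have d : (0 : ℝ) < (x + 1) ^ (-σ) := by positivity
    have := mul_le_mul_of_nonneg_left a (show (0 : ℝ) ≤ (x + 1) ^ (1 - σ) by positivity)
    rw [← b, c] at this
    have f : (x + 1 : ℝ) * (x + 1) ^ (-σ) * (1 + (1 - σ) * -(1 / (x + 1))) =
      (x + 1) * (x + 1) ^ (-σ) - (1 - σ) * (x + 1) ^ (-σ) := by field_simp; ring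
    rw [c]; linarith

lemma T_ge {σ : ℝ} (h0 : 0 ≤ σ) (h1 : σ < 1) (x : ℕ) :
    (x + 1 : ℝ) ^ (1 - σ) ≤ (1 - σ) * S σ (Icc 1 x) + 1 := by
  induction x with
  | zero => simp [S]
  | succ x ih =>
    unfold S at *
    rw [sum_Icc_succ_top (by omega), mul_add]
    push_cast
    have p : (0 : ℝ) < x + 1 := by positivity
    have a := rpow_one_add_le_one_add_mul_self (s := (1 / (x + 1 : ℝ))) (p := 1 - σ)
      (le_trans (by norm_num) (by positivity : (0 : ℝ) ≤ _)) (by linarith) (by linarith)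
    have e : (x + 1 + 1 : ℝ) = (x + 1) * (1 + (1 / (x + 1))) := by field_simp
    have c : (x + 1 : ℝ) ^ (1 - σ) = (x + 1) * (x + 1) ^ (-σ) := by
      rw [sub_eq_add_neg, Real.rpow_add p, Real.rpow_one]
    have := mul_le_mul_of_nonneg_left a (show (0 : ℝ) ≤ (x + 1) ^ (1 - σ) by positivity)
    rw [← Real.mul_rpow p.le (by positivity), ← e] at this
    have f : (x + 1 : ℝ) ^ (1 - σ) * (1 + (1 - σ) * (1 / (x + 1))) =
      (x + 1) ^ (1 - σ) + (1 - σ) * (x + 1) ^ (-σ) := by rw [c]; field_simp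
    linarith

lemma dec (P : ℕ) (a : ℕ) : ∃ s r : ℕ, 0 < a → a = s * r ∧ (∃ k, s ∣ P ^ k) ∧ r.Coprime P := by
  induction a using Nat.strong_induction_on with
  | _ a ih =>
    by_cases h : a.Coprime P
    · exact ⟨1, a, fun _ => ⟨by simp, ⟨0, by simp⟩, h⟩⟩
    rcases Nat.eq_zero_or_pos a with rfl | a0
    · exact ⟨0, 0, by simp⟩
    obtain ⟨b, hb⟩ := Nat.gcd_dvd_left a P
    have g0 : 0 < a.gcd P := Nat.gcd_pos_of_pos_left _ a0
    have g1 : a.gcd P ≠ 1 := h
    have b0 : 0 < b := Nat.pos_of_mul_pos_left (hb ▸ a0)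
    obtain ⟨s, r, h1⟩ := ih b (by nlinarith [show 2 ≤ a.gcd P by omega])
    obtain ⟨h1, ⟨k, h2⟩, h3⟩ := h1 b0
    exact ⟨a.gcd P * s, r, fun _ => ⟨by rw [mul_assoc, ← h1, ← hb], ⟨k + 1, by
      rw [pow_succ']; exact mul_dvd_mul (Nat.gcd_dvd_right _ _) h2⟩, h3⟩⟩

lemma dil {σ G : ℝ} (h0 : 0 ≤ σ) {J L x n : ℕ} (hJ : 2 ≤ J) (hx : 0 < x) (hn : x ≤ n)
    (hG : ∀ A ⊆ Icc 1 n, Prim A → S σ A ≤ G) (s r : ℕ → ℕ) {B : Finset ℕ} (hB : Prim B)
    (h : ∀ a ∈ B, a = s a * r a ∧ (∃ k, s a ∣ (2 * L).factorial ^ k) ∧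
      (r a).Coprime (2 * L).factorial ∧ x < L * a ∧ (J + 1) * a ≤ J * x ∧
        2 * (2 * L).factorial * J ≤ r a) :
    n * ((J + 1) / J * (n / x) : ℝ) ^ (-σ) * S σ B ≤ x * G := by
  set P := (2 * L).factorial with hP
  have P0 : 0 < P := Nat.factorial_pos _
  have n0 : 0 < n := by omega
  let w : ℕ × ℕ → ℕ := fun z => r z.1 / P * n + z.2
  let r' : ℕ × ℕ → ℕ := fun z => P * (w z / x) + r z.1 % P
  let f : ℕ × ℕ → ℕ := fun z => s z.1 * r' z
  have cop : ∀ z ∈ B ×ˢ range n, (r' z).Coprime P := by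
    intro z hz
    have := (h _ (mem_product.1 hz).1).2.2.1
    simp only [r']
    rw [Nat.coprime_mul_left_add_left, Nat.Coprime, ← Nat.gcd_rec, Nat.gcd_comm]
    exact this
  have bd : ∀ z ∈ B ×ˢ range n, J * (f z * x) ≤ (J + 1) * (z.1 * n) ∧ z.1 * n ≤ 2 * (f z * x) := by
    rintro ⟨a, v⟩ hz
    obtain ⟨h1, -, -, -, -, h2⟩ := h a (mem_product.1 hz).1
    have hv : v < n := mem_range.1 (mem_product.1 hz).2
    have e1 := Nat.div_add_mod (r a) P
    have e2 := Nat.mod_lt (r a) P0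
    have e3 := Nat.div_add_mod (w (a, v)) x
    have e4 := Nat.mod_lt (w (a, v)) hx
    have u1 : r' (a, v) * x ≤ (r a + 2 * P) * n := by
      simp only [r', w] at *
      generalize (r a / P * n + v) / x = m' at *
      generalize (r a / P * n + v) % x = t at *
      generalize r a / P = m at *
      generalize r a % P = ρ at *
      rw [← e1]
      nlinarith [Nat.mul_le_mul_left P (show x * m' ≤ m * n + n by omega),
        Nat.mul_le_mul e2.le hn, Nat.zero_le (ρ * n)]
    have u2 : r a * n ≤ r' (a, v) * x + 2 * P * n := by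
      simp only [r', w] at *
      generalize (r a / P * n + v) / x = m' at *
      generalize (r a / P * n + v) % x = t at *
      generalize r a / P = m at *
      generalize r a % P = ρ at *
      rw [← e1]
      nlinarith [Nat.mul_le_mul_left P (show m * n ≤ x * m' + n by omega),
        Nat.mul_le_mul_right n e2.le, Nat.zero_le (ρ * x)]
    have u3 := Nat.mul_le_mul_right n h2
    have u4 : J * (r' (a, v) * x) ≤ (J + 1) * (r a * n) := by
      nlinarith [Nat.mul_le_mul_left J u1]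
    have u5 : r a * n ≤ 2 * (r' (a, v) * x) := by
      nlinarith [Nat.mul_le_mul_left (2 * P * n) hJ]
    simp only [f]
    constructor
    · calc _ = s a * (J * (r' (a, v) * x)) := by ring
        _ ≤ s a * ((J + 1) * (r a * n)) := by gcongr
        _ = (J + 1) * (s a * r a * n) := by ring
        _ = _ := by rw [← h1]
    · calc _ = s a * (r a * n) := by rw [← mul_assoc, ← h1]
        _ ≤ s a * (2 * (r' (a, v) * x)) := by gcongr
        _ = _ := by ring
  have win : ∀ z ∈ B ×ˢ range n, f z ≤ n ∧ n < 2 * L * f z := by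
    intro z hz
    obtain ⟨-, -, -, h1, h2, -⟩ := h _ (mem_product.1 hz).1
    obtain ⟨b1, b2⟩ := bd z hz
    constructor
    · refine Nat.le_of_mul_le_mul_right ?_ (show 0 < J * x by positivity)
      nlinarith [Nat.mul_le_mul_right n h2]
    · refine Nat.lt_of_mul_lt_mul_right (a := x) ?_
      nlinarith [Nat.mul_le_mul_left L b2, Nat.mul_lt_mul_of_pos_right h1 n0]
  have key : ∀ z ∈ B ×ˢ range n, ∀ y ∈ B ×ˢ range n, w z % x = w y % x → f z ∣ f y → z = y := by
    rintro ⟨a, v⟩ hz ⟨b, u⟩ hy e ⟨d, hd⟩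
    obtain ⟨a1, ⟨k, a2⟩, -⟩ := h a (mem_product.1 hz).1
    obtain ⟨b1, ⟨l, b2⟩, -⟩ := h b (mem_product.1 hy).1
    have c1 := cop _ hz
    have c2 := cop _ hy
    have w1 := win _ hz
    have w2 := win _ hy
    have d0 : 0 < d := Nat.pos_of_ne_zero fun c => by rw [c] at hd; rw [hd] at w2; omega
    have d1 : d ≤ 2 * L := by
      by_contra c
      nlinarith [Nat.mul_le_mul_left (f (a, v)) (not_le.1 c).le]
    have dP : d ∣ P := Nat.dvd_factorial d0 d1
    simp only [f] at hd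
    have q1 : r' (a, v) ∣ r' (b, u) := ((c1.pow_right l).coprime_dvd_right b2).dvd_of_dvd_mul_left
      ⟨s a * d, by rw [hd]; ring⟩
    have q2 : r' (b, u) ∣ r' (a, v) := (((c2.pow_right k).coprime_dvd_right a2).mul_right
      (c2.coprime_dvd_right dP)).dvd_of_dvd_mul_left ⟨s b, by rw [mul_comm (r' (b, u)), hd]; ring⟩
    have q3 : s a ∣ s b := ((c2.pow_right k).coprime_dvd_right a2).symm.dvd_of_dvd_mul_right
      ⟨r' (a, v) * d, by rw [hd]; ring⟩
    have q4 := Nat.dvd_antisymm q1 q2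
    have m1 : r a % P = r b % P := by simpa [r'] using congrArg (· % P) q4
    have m2 : w (a, v) / x = w (b, u) / x := by
      simp only [r', m1] at q4
      exact Nat.eq_of_mul_eq_mul_left P0 (by omega)
    have m3 : w (a, v) = w (b, u) := by
      rw [← Nat.div_add_mod (w (a, v)) x, e, m2, Nat.div_add_mod]
    have hv : v < n := mem_range.1 (mem_product.1 hz).2
    have hu : u < n := mem_range.1 (mem_product.1 hy).2
    have m4 : v = u := by
      have := congrArg (· % n) m3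
      simpa [w, Nat.mod_eq_of_lt hv, Nat.mod_eq_of_lt hu] using this
    have m5 : r a / P = r b / P := by
      simp only [w, m4] at m3
      exact Nat.eq_of_mul_eq_mul_right n0 (by omega)
    have m6 : r a = r b := by rw [← Nat.div_add_mod (r a) P, m1, m5, Nat.div_add_mod]
    rw [m4, hB a (mem_product.1 hz).1 b (mem_product.1 hy).1 (by
      rw [a1, b1, m6]; exact mul_dvd_mul_right q3 _)]
  calc _ = ∑ z ∈ B ×ˢ range n, ((J + 1) / J * (n / x) : ℝ) ^ (-σ) * (z.1 : ℝ) ^ (-σ) := by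
        rw [sum_product, S, mul_sum]
        simp [mul_assoc]
    _ ≤ ∑ z ∈ B ×ˢ range n, (f z : ℝ) ^ (-σ) := by
        refine sum_le_sum fun z hz => ?_
        rw [← Real.mul_rpow (by positivity) (by positivity)]
        have f0 : 0 < f z := Nat.pos_of_ne_zero fun c => by have := (win z hz).2; simp [c] at this
        refine Real.rpow_le_rpow_of_nonpos (by positivity) ?_ (by linarith)
        have : (J * (f z * x) : ℝ) ≤ (J + 1) * (z.1 * n) := by exact_mod_cast (bd z hz).1
        have J0 : (0 : ℝ) < J := by positivity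
        rw [div_mul_div_comm, div_mul_eq_mul_div, le_div_iff₀ (by positivity)]
        linarith
    _ = ∑ t ∈ range x, ∑ z ∈ (B ×ˢ range n).filter (w · % x = t), (f z : ℝ) ^ (-σ) :=
        (sum_fiberwise_of_maps_to (fun z _ => mem_range.2 (Nat.mod_lt _ hx)) _).symm
    _ ≤ ∑ _t ∈ range x, G := by
        refine sum_le_sum fun t _ => ?_
        have k2 : ∀ z ∈ (B ×ˢ range n).filter (w · % x = t),
            ∀ y ∈ (B ×ˢ range n).filter (w · % x = t), f z ∣ f y → z = y := fun z hz y hy =>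
          key z (mem_filter.1 hz).1 y (mem_filter.1 hy).1
            ((mem_filter.1 hz).2.trans (mem_filter.1 hy).2.symm)
        rw [← sum_image (g := f) (f := fun a : ℕ => (a : ℝ) ^ (-σ))
          fun z hz y hy c => k2 z hz y hy (c ▸ dvd_rfl)]
        refine hG _ (fun a ha => ?_) fun a ha b hb c => ?_
        · obtain ⟨z, hz, rfl⟩ := mem_image.1 ha
          have := win z (mem_filter.1 hz).1
          exact mem_Icc.2 ⟨Nat.pos_of_ne_zero fun c => by simp [c] at this, this.1⟩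
        · obtain ⟨z, hz, rfl⟩ := mem_image.1 ha
          obtain ⟨y, hy, rfl⟩ := mem_image.1 hb
          rw [k2 z hz y hy c]
    _ = _ := by simp

end Pool.Agent.H.MP_def192_nt
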