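import Pool.Agent.H.MP_def192_nt.B

open Finset Filter

namespace Pool.Agent.H.MP_def192_nt

lemma S_union (σ : ℝ) (A B : Finset ℕ) : S σ (A ∪ B) ≤ S σ A + S σ B := by
  have := S_nonneg σ (A ∩ B)
  unfold S at *
  rw [← sum_union_inter]; linarith

lemma Prim.mono {A B : Finset ℕ} (h : Prim A) (hB : B ⊆ A) : Prim B :=
  fun a ha b hb => h a (hB ha) b (hB hb)

lemma cntE (y R x : ℕ) (s r : ℕ → ℕ) (E : Finset ℕ)
    (h : ∀ a ∈ E, 0 < a ∧ a ≤ x ∧ a = s a * r a ∧ (∃ k, s a ∣ y.factorial ^ k) ∧ r a < R) :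
    E.card ≤ R * 2 ^ (y + 1) * x.sqrt := by
  have : E.card ≤ (range R ×ˢ Nat.smoothNumbersUpTo x (y + 1)).card := by
    refine card_le_card_of_injOn (fun a => (r a, s a)) (fun a ha => ?_) fun a ha b hb c => ?_
    · obtain ⟨h1, h2, h3, ⟨k, h4⟩, h5⟩ := h a ha
      simp only [coe_product, Set.mem_prod, mem_coe, mem_range, Nat.mem_smoothNumbersUpTo]
      refine ⟨h5, (Nat.le_of_dvd h1 ⟨_, h3⟩).trans h2, Nat.mem_smoothNumbers'.2 fun p hp d => ?_⟩
      exact Nat.lt_succ_of_le (hp.dvd_factorial.1 (hp.dvd_of_dvd_pow (d.trans h4)))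
    · simp only [Prod.mk.injEq] at c
      rw [(h a ha).2.2.1, (h b hb).2.2.1, c.1, c.2]
  rw [card_product, card_range] at this
  rw [mul_assoc]
  refine this.trans (Nat.mul_le_mul_left _ ((Nat.smoothNumbersUpTo_card_le _ _).trans ?_))
  gcongr
  · norm_num
  · exact (card_filter_le _ _).trans (by simp)

lemma slow {σ η : ℝ} (h0 : 0 ≤ σ) (h1 : σ < 1) (hη : 0 < η) : ∃ x0 : ℕ, ∀ x ≥ x0, ∀ n ≥ x,
    ∀ c : ℝ, 0 ≤ c → c ≤ 1 → (∀ A ⊆ Icc 1 n, Prim A → S σ A ≤ c * S σ (Icc 1 n)) →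
      ∀ A ⊆ Icc 1 x, Prim A → S σ A ≤ (c + η) * S σ (Icc 1 x) := by
  have ρ0 : 0 < 1 - σ := by linarith
  obtain ⟨L, hL, L0⟩ : ∃ L : ℕ, (L : ℝ) ^ (-(1 - σ)) ≤ η / 4 ∧ 1 ≤ L :=
    ((((tendsto_rpow_neg_atTop ρ0).comp tendsto_natCast_atTop_atTop).eventually_le_const
      (by positivity)).and (eventually_ge_atTop 1)).exists
  obtain ⟨J', hJ'⟩ := exists_nat_ge (4 * (L + 1) / η)
  set J := J' + 2 with hJ
  set C := 2 * (2 * L).factorial * J * 2 ^ (2 * L + 1) with hC
  obtain ⟨N, hN⟩ := exists_nat_ge (4 * (L * (1 + C)) / η)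
  obtain ⟨x1, hx1⟩ := eventually_atTop.1 (((tendsto_rpow_atTop ρ0).comp
    tendsto_natCast_atTop_atTop).eventually_ge_atTop (4 * (1 + η) / η))
  refine ⟨x1 + N * N + 1, fun x hx n hn c c0 c1 hG A hA pA => ?_⟩
  choose s r hd using dec (2 * L).factorial
  have x0 : 0 < x := by omega
  have xr : (0 : ℝ) < x := by positivity
  have nr : (0 : ℝ) < n := by exact_mod_cast (by omega : 0 < n)
  have Lr : (1 : ℝ) ≤ L := by exact_mod_cast L0
  have Jr : (0 : ℝ) < J := by positivity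
  let B := A.filter fun a => x < L * a ∧ (J + 1) * a ≤ J * x ∧ 2 * (2 * L).factorial * J ≤ r a
  let E1 := A.filter fun a => x < L * a ∧ J * x < (J + 1) * a
  let E2 := A.filter fun a => x < L * a ∧ r a < 2 * (2 * L).factorial * J
  have cov : A ⊆ B ∪ Icc 1 (x / L) ∪ (E1 ∪ E2) := by
    intro a ha
    have := mem_Icc.1 (hA ha)
    simp only [B, E1, E2, mem_union, mem_filter, ha, true_and, mem_Icc, Nat.le_div_iff_mul_le L0,
      mul_comm a L]
    omega
  set X := (x : ℝ) ^ (1 - σ) with hX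
  have eX : X = x * (x : ℝ) ^ (-σ) := by rw [hX, sub_eq_add_neg, Real.rpow_add xr, Real.rpow_one]
  have b1 : (1 - σ) * S σ B ≤ (c + 1 / J) * X := by
    have d := dil h0 (J := J) (L := L) (by omega) x0 hn hG s r (pA.mono (filter_subset _ _) : Prim B)
      fun a ha => by
        obtain ⟨h2, h3⟩ := mem_filter.1 ha
        obtain ⟨e1, e2, e3⟩ := hd a (mem_Icc.1 (hA h2)).1
        exact ⟨e1, e2, e3, h3⟩
    have t := T_le h0 h1 n
    have en : (n : ℝ) ^ (1 - σ) = n * (n : ℝ) ^ (-σ) := by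
      rw [sub_eq_add_neg, Real.rpow_add nr, Real.rpow_one]
    have j : J / (J + 1 : ℝ) ≤ ((J + 1) / J : ℝ) ^ (-σ) := by
      rw [← inv_div, ← Real.rpow_neg_one]
      exact Real.rpow_le_rpow_of_exponent_le (by rw [one_le_div Jr]; linarith) (by linarith)
    rw [Real.mul_rpow (by positivity) (by positivity), Real.div_rpow nr.le xr.le] at d
    have sB := S_nonneg σ B
    have p1 : (0 : ℝ) < (n : ℝ) ^ (-σ) := by positivity
    have p2 : (0 : ℝ) < (x : ℝ) ^ (-σ) := by positivity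
    have d2 : n * (J / (J + 1) * ((n : ℝ) ^ (-σ) / (x : ℝ) ^ (-σ))) * ((1 - σ) * S σ B) ≤
        x * (c * (n * (n : ℝ) ^ (-σ))) :=
      calc _ ≤ n * (((J + 1) / J : ℝ) ^ (-σ) * ((n : ℝ) ^ (-σ) / (x : ℝ) ^ (-σ))) *
            ((1 - σ) * S σ B) := by gcongr
        _ = (1 - σ) * (n * (((J + 1) / J : ℝ) ^ (-σ) * ((n : ℝ) ^ (-σ) / (x : ℝ) ^ (-σ))) *
            S σ B) := by ring
        _ ≤ (1 - σ) * (x * (c * S σ (Icc 1 n))) := by gcongr
        _ = x * (c * ((1 - σ) * S σ (Icc 1 n))) := by ring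
        _ ≤ _ := by rw [← en]; gcongr
    have d3 : (1 - σ) * S σ B ≤ (J + 1) / J * c * X := by
      refine le_of_mul_le_mul_left (d2.trans (le_of_eq ?_)) (by positivity)
      rw [eX]; field_simp
    refine d3.trans ?_
    gcongr
    rw [div_mul_eq_mul_div, div_le_iff₀ Jr, add_mul, add_mul, one_div_mul_cancel Jr.ne']
    linarith
  have b2 : (1 - σ) * S σ (Icc 1 (x / L)) ≤ η / 4 * X := by
    refine (T_le h0 h1 _).trans ?_
    calc _ ≤ (x / L : ℝ) ^ (1 - σ) := by gcongr; exact Nat.cast_div_le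
      _ = (L : ℝ) ^ (-(1 - σ)) * X := by
          rw [Real.div_rpow xr.le (by positivity), Real.rpow_neg (by positivity)]; ring
      _ ≤ _ := by gcongr
  have sq1 : N ≤ x.sqrt := Nat.le_sqrt.2 (by omega)
  have sq2 : 1 ≤ x.sqrt := Nat.le_sqrt.2 (by omega)
  have cE : ((E1 ∪ E2).card : ℝ) ≤ x / J + (1 + C) * x.sqrt := by
    have e1 : E1.card ≤ x / J + 1 := by
      refine (card_le_card (t := Icc (x - x / J) x) fun a ha => ?_).trans (by
        rw [Nat.card_Icc]; generalize x / J = k; omega)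
      obtain ⟨h2, -, h3⟩ := mem_filter.1 ha
      have := (mem_Icc.1 (hA h2)).2
      refine mem_Icc.2 ⟨?_, this⟩
      have : x - a ≤ x / J := (Nat.le_div_iff_mul_le (by omega)).2 (by
        obtain ⟨d, rfl⟩ := Nat.exists_eq_add_of_le this
        rw [Nat.add_sub_cancel_left]; nlinarith)
      omega
    have e2 : E2.card ≤ C * x.sqrt := cntE (2 * L) _ x s r E2 fun a ha => by
      obtain ⟨h2, -, h3⟩ := mem_filter.1 ha
      have := mem_Icc.1 (hA h2)
      obtain ⟨e1, e2, -⟩ := hd a this.1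
      exact ⟨this.1, this.2, e1, e2, h3⟩
    have e3 : (E1 ∪ E2).card ≤ x / J + (1 + C) * x.sqrt := by
      have := card_union_le E1 E2; nlinarith
    refine le_trans (by exact_mod_cast e3 : _ ≤ ((x / J : ℕ) + (1 + C) * x.sqrt : ℝ)) ?_
    gcongr; exact Nat.cast_div_le
  have b3 : S σ (E1 ∪ E2) ≤ (L / J + η / 4) * X := by
    have p2 : (0 : ℝ) < (x : ℝ) ^ (-σ) := by positivity
    calc _ ≤ (E1 ∪ E2).card • (L * (x : ℝ) ^ (-σ)) := by
          refine sum_le_card_nsmul _ _ _ fun a ha => ?_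
          have : x < L * a := by
            rcases mem_union.1 ha with h | h <;> exact (mem_filter.1 h).2.1
          have : (x : ℝ) ≤ L * a := by exact_mod_cast this.le
          calc (a : ℝ) ^ (-σ) ≤ (x / L : ℝ) ^ (-σ) := Real.rpow_le_rpow_of_nonpos (by positivity)
                (by rw [div_le_iff₀' (by positivity)]; exact this) (by linarith)
            _ = (L : ℝ) ^ σ * (x : ℝ) ^ (-σ) := by
                rw [Real.div_rpow xr.le (by positivity), Real.rpow_neg (x := L) (by positivity)]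
                field_simp
            _ ≤ _ := by
                gcongr
                exact (Real.rpow_le_rpow_of_exponent_le Lr h1.le).trans (by simp)
      _ ≤ (x / J + (1 + C) * x.sqrt) * (L * (x : ℝ) ^ (-σ)) := by rw [nsmul_eq_mul]; gcongr
      _ = (L / J * x + L * (1 + C) * x.sqrt) * (x : ℝ) ^ (-σ) := by ring
      _ ≤ (L / J * x + η / 4 * x) * (x : ℝ) ^ (-σ) := by
          gcongr ((_ + ?_) * _)
          have : (N * x.sqrt : ℝ) ≤ x := by
            exact_mod_cast (Nat.mul_le_mul_right _ sq1).trans (Nat.sqrt_le x)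
          rw [div_le_iff₀ hη] at hN
          have : (0 : ℝ) ≤ x.sqrt := by positivity
          nlinarith
      _ = _ := by rw [eX]; ring
  have b4 : (L + 1) / J ≤ η / 4 := by
    rw [div_le_iff₀ hη] at hJ'
    rw [div_le_iff₀ Jr, hJ]; push_cast; nlinarith
  have b5 : 1 + η ≤ η / 4 * X := by
    have := hx1 x (by omega)
    simp only [Function.comp, ← hX, ge_iff_le, div_le_iff₀ hη] at this
    linarith
  have b6 : X ≤ (1 - σ) * S σ (Icc 1 x) + 1 :=
    le_trans (by rw [hX]; gcongr; linarith) (T_ge h0 h1 x)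
  have u1 := (S_mono σ cov).trans (S_union _ _ _)
  have u2 := S_union σ B (Icc 1 (x / L))
  have u3 := mul_nonneg h0 (S_nonneg σ (E1 ∪ E2))
  have X0 : 0 < X := by positivity
  have b7 := mul_le_mul_of_nonneg_right b4 X0.le
  rw [add_div] at b7
  refine le_of_mul_le_mul_left ?_ ρ0
  nlinarith [mul_le_mul_of_nonneg_left (u1.trans (add_le_add_left u2 _)) ρ0.le,
    mul_le_mul_of_nonneg_left b6 (show 0 ≤ c + η by positivity)]

end Pool.Agent.H.MP_def192_nt
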