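import Pool.Agent.H.MP_def192_nt.C

open Finset Filter

namespace Pool.Agent.H.MP_def192_nt

lemma abel (u w : ℕ → ℝ) {k n : ℕ} (h : k ≤ n) (hw : ∀ m, k ≤ m → m < n → w (m + 1) ≤ w m)
    (hU : ∀ m, k ≤ m → m ≤ n → 0 ≤ ∑ i ∈ Ioc 0 m, u i) :
    w n * ∑ i ∈ Ioc 0 n, u i ≤ w k * ∑ i ∈ Ioc 0 k, u i + ∑ i ∈ Ioc k n, u i * w i := by
  induction n, h using Nat.le_induction with
  | base => simp
  | succ n h ih =>
    have := ih (fun m a b => hw m a (by omega)) (fun m a b => hU m a (by omega))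
    rw [sum_Ioc_succ_top (by omega), sum_Ioc_succ_top h]
    nlinarith [mul_le_mul_of_nonneg_right (hw n h (by omega)) (hU n h (by omega))]

lemma H_le {a b : ℕ} (ha : 0 < a) (h : a ≤ b) :
    ∑ m ∈ Ioc a b, (1 / m : ℝ) ≤ Real.log b - Real.log a := by
  induction b, h using Nat.le_induction with
  | base => simp
  | succ n h ih =>
    rw [sum_Ioc_succ_top h]
    have n0 : (0 : ℝ) < n := by exact_mod_cast (by omega : 0 < n)
    have := Real.log_le_sub_one_of_pos (show (0 : ℝ) < n / (n + 1) by positivity)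
    rw [Real.log_div n0.ne' (by positivity)] at this
    have e : (n : ℝ) / (n + 1) - 1 = -(1 / (n + 1)) := by field_simp; ring
    push_cast; linarith

lemma H_ge {a b : ℕ} (h : a ≤ b) :
    Real.log (b + 1) - Real.log (a + 1) ≤ ∑ m ∈ Ioc a b, (1 / m : ℝ) := by
  induction b, h using Nat.le_induction with
  | base => simp
  | succ n h ih =>
    rw [sum_Ioc_succ_top h]
    have := Real.log_le_sub_one_of_pos (show (0 : ℝ) < (n + 1 + 1) / (n + 1) by positivity)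
    rw [Real.log_div (by positivity) (by positivity)] at this
    have e : (n + 1 + 1 : ℝ) / (n + 1) - 1 = 1 / (n + 1) := by field_simp; ring
    push_cast; linarith

lemma gain {c : ℝ} (hc : 0 < c) : ∃ K : ℕ, 1 ≤ K ∧ ∃ n0 : ℕ, ∀ n ≥ n0, ∀ A ⊆ Icc 1 n, Prim A →
    ∑ a ∈ A ∩ Ioc (n / K) n, (1 / a : ℝ) + 1 ≤ c * ∑ m ∈ Ioc (n / K) n, (1 / m : ℝ) := by
  obtain ⟨P, P0, hP⟩ := behr (half_pos hc)
  obtain ⟨K, hK, K1⟩ : ∃ K : ℕ, 2 / c + 2 * Real.log 2 + Real.log (2 * P * P) ≤ Real.log K ∧ 1 ≤ K :=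
    (((Real.tendsto_log_atTop.comp tendsto_natCast_atTop_atTop).eventually_ge_atTop _).and
      (eventually_ge_atTop 1)).exists
  refine ⟨K, K1, K * P, fun n hn A hA pA => ?_⟩
  have a0 : 0 < n / K / P := by
    rw [Nat.div_div_eq_div_mul]; exact Nat.div_pos hn (by positivity)
  have n0 : K ≤ n := le_trans (Nat.le_mul_of_pos_right _ P0) hn
  have h1 := hP (A ∩ Ioc (n / K) n) (Ioc (n / K / P) (n * P)) (pA.mono inter_subset_left)
    (by simp) fun a ha m h1 h2 => by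
      have := mem_Ioc.1 (mem_inter.1 ha).2
      exact mem_Ioc.2 ⟨(Nat.div_lt_iff_lt_mul P0).2 (by omega),
        h2.trans (Nat.mul_le_mul_right _ this.2)⟩
  have h2 := H_le a0 (show n / K / P ≤ n * P from (Nat.div_le_self _ _).trans
    ((Nat.div_le_self _ _).trans (Nat.le_mul_of_pos_right _ P0)))
  have h3 := H_ge (Nat.div_le_self n K)
  have Kr : (0 : ℝ) < K := by positivity
  have h4 : Real.log (n * P : ℕ) ≤ Real.log (n / K / P : ℕ) + Real.log (2 * P * P) + Real.log K := by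
    rw [← Real.log_mul (by positivity) (by positivity), ← Real.log_mul (by positivity) Kr.ne']
    refine Real.log_le_log (by exact_mod_cast Nat.mul_pos (by omega) P0) ?_
    have : n * P ≤ n / K / P * (2 * P * P) * K := by
      rw [Nat.div_div_eq_div_mul] at a0 ⊢
      have := Nat.lt_div_mul_add (a := n) (show 0 < K * P by positivity)
      generalize n / (K * P) = q at *
      nlinarith [Nat.mul_le_mul_right (K * P) a0, Nat.mul_le_mul_right P
        (show n ≤ 2 * (q * (K * P)) by nlinarith [Nat.mul_le_mul_right (K * P) a0])]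
    exact_mod_cast this
  have h5 : Real.log ((n / K : ℕ) + 1) + Real.log K ≤ Real.log (n + 1) + Real.log 2 := by
    rw [← Real.log_mul (by positivity) (by positivity), ← Real.log_mul (by positivity) (by positivity)]
    refine Real.log_le_log (by positivity) ?_
    have : (n / K + 1) * K ≤ (n + 1) * 2 := by nlinarith [Nat.div_mul_le_self n K]
    exact_mod_cast this
  have e : c * (2 / c) = 2 := by field_simp
  nlinarith

lemma wanti {τ τ' k x y : ℝ} (h0 : 0 < τ) (h1 : τ ≤ τ') (hk : 0 < k) (hx : k ≤ x) (hy : x ≤ y) :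
    y ^ (-τ) - τ / τ' * k ^ (τ' - τ) * y ^ (-τ') ≤ x ^ (-τ) - τ / τ' * k ^ (τ' - τ) * x ^ (-τ') := by
  have τ0 : 0 < τ' := by linarith
  have d : ∀ z, 0 < z → HasDerivAt (fun z : ℝ => z ^ (-τ) - τ / τ' * k ^ (τ' - τ) * z ^ (-τ'))
      (-τ * z ^ (-τ - 1) - τ / τ' * k ^ (τ' - τ) * (-τ' * z ^ (-τ' - 1))) z := fun z hz =>
    (Real.hasDerivAt_rpow_const (Or.inl hz.ne')).sub
      ((Real.hasDerivAt_rpow_const (Or.inl hz.ne')).const_mul _)
  refine antitoneOn_of_deriv_nonpos (convex_Ici k)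
    (fun z hz => (d z (hk.trans_le hz)).continuousAt.continuousWithinAt)
    (fun z hz => (d z (hk.trans_le (interior_subset hz))).differentiableAt.differentiableWithinAt)
    (fun z hz => ?_) hx (hx.trans hy) hy
  have hz' : k ≤ z := interior_subset hz
  have z0 := hk.trans_le hz'
  rw [(d z z0).deriv]
  have a : k ^ (τ' - τ) ≤ z ^ (τ' - τ) := by gcongr
  have b : z ^ (-τ - 1) = z ^ (τ' - τ) * z ^ (-τ' - 1) := by rw [← Real.rpow_add z0]; ring_nf
  have c : 0 < z ^ (-τ' - 1) := by positivity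
  have e : τ / τ' * k ^ (τ' - τ) * (-τ' * z ^ (-τ' - 1)) = -(τ * (k ^ (τ' - τ) * z ^ (-τ' - 1))) := by
    field_simp
  rw [e, b]
  nlinarith [mul_le_mul_of_nonneg_right a c.le]

lemma Usum (σ d : ℝ) (A I : Finset ℕ) :
    ∑ i ∈ I, (d - if i ∈ A then 1 else 0) * (i : ℝ) ^ (-σ) = d * S σ I - S σ (A ∩ I) := by
  simp only [sub_mul, sum_sub_distrib, S, mul_sum, ite_mul, one_mul, zero_mul, sum_ite_mem,
    inter_comm]

lemma half {σ c : ℝ} (h0 : 0 ≤ σ) (h1 : σ < 1) {n : ℕ} (hn : 0 < n)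
    (h : ∀ A ⊆ Icc 1 n, Prim A → S σ A ≤ c * S σ (Icc 1 n)) : (1 - σ) / 2 ≤ c := by
  have h2 := h (Ioc (n / 2) n) (fun a ha => by rw [mem_Ioc] at ha; rw [mem_Icc]; omega) (by
    rintro a ha b hb ⟨d, rfl⟩
    rw [mem_Ioc] at ha hb
    rcases d with _ | _ | d
    · omega
    · simp
    · nlinarith [Nat.div_add_mod n 2, Nat.mod_lt n two_pos])
  have nr : (0 : ℝ) < n := by positivity
  have h3 : (Ioc (n / 2) n).card • (n : ℝ) ^ (-σ) ≤ S σ (Ioc (n / 2) n) :=
    card_nsmul_le_sum _ _ _ fun a ha => by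
      rw [mem_Ioc] at ha
      exact Real.rpow_le_rpow_of_nonpos (by exact_mod_cast (by omega : 0 < a))
        (by exact_mod_cast ha.2) (by linarith)
  have h4 : (n : ℝ) ≤ 2 * (Ioc (n / 2) n).card := by
    rw [Nat.card_Ioc]; exact_mod_cast (by omega : n ≤ 2 * (n - n / 2))
  have h5 := T_le h0 h1 n
  rw [sub_eq_add_neg 1 σ, Real.rpow_add nr, Real.rpow_one, ← sub_eq_add_neg] at h5
  rw [nsmul_eq_mul] at h3
  have p : (0 : ℝ) < (n : ℝ) ^ (-σ) := by positivity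
  have h6 : n * (n : ℝ) ^ (-σ) ≤ 2 * (c * S σ (Icc 1 n)) := by nlinarith
  have h7 : 0 < S σ (Icc 1 n) := sum_pos (fun a ha => by
    have := (mem_Icc.1 ha).1; positivity) ⟨1, by simp; omega⟩
  by_contra hc
  nlinarith

lemma main1 {c : ℝ} (hc : 0 < c) : ∃ n0 : ℕ, ∀ n ≥ n0, ∀ A ⊆ Icc 1 n, Prim A →
    S 1 A < c * S 1 (Icc 1 n) := by
  obtain ⟨P, P0, hP⟩ := behr (half_pos hc)
  obtain ⟨n0, h0⟩ := eventually_atTop.1 ((Real.tendsto_log_atTop.comp
    tendsto_natCast_atTop_atTop).eventually_gt_atTop (1 + Real.log P))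
  refine ⟨n0 + 1, fun n hn A hA pA => ?_⟩
  have h1 := hP A (Ioc 0 (n * P)) pA (fun h => by simpa using hA h) fun a ha m h1 h2 => by
    have := mem_Icc.1 (hA ha)
    exact mem_Ioc.2 ⟨Nat.pos_of_ne_zero fun c => by rw [c] at h1; omega,
      h2.trans (Nat.mul_le_mul_right _ this.2)⟩
  have n1 : 1 ≤ n * P := Nat.mul_pos (by omega) P0
  have h2 := H_le one_pos n1
  have h3 := H_ge (Nat.zero_le n)
  have h4 := h0 n (by omega)
  have nr : (0 : ℝ) < n := by exact_mod_cast (by omega : 0 < n)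
  have h5 : Real.log n ≤ Real.log (n + 1) := Real.log_le_log nr (by linarith)
  rw [← sum_Ioc_consecutive _ (Nat.zero_le 1) n1] at h1
  push_cast at h2
  rw [Real.log_mul nr.ne' (by positivity)] at h2
  simp only [S, Real.rpow_neg_one, ← one_div, show Icc 1 n = Ioc 0 n from rfl]
  simp only [Function.comp] at h4
  simp only [Nat.cast_zero, zero_add, Real.log_one, sub_zero] at h2 h3
  rw [show ∑ i ∈ Ioc (0 : ℕ) 1, (1 / i : ℝ) = 1 by simp] at h1
  nlinarith

lemma main2 {σ σ2 : ℝ} (h0 : 0 ≤ σ) (h12 : σ < σ2) (h1 : σ2 < 1) : ∃ n0 : ℕ, ∀ n ≥ n0, ∀ c : ℝ,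
    c ≤ 1 → (∀ A ⊆ Icc 1 n, Prim A → S σ A ≤ c * S σ (Icc 1 n)) →
      ∀ A ⊆ Icc 1 n, Prim A → S σ2 A < c * S σ2 (Icc 1 n) := by
  have t1 : 0 < 1 - σ := by linarith
  have t2 : 0 < 1 - σ2 := by linarith
  have t3 : 0 < σ2 - σ := by linarith
  obtain ⟨K, K1, n1, hK⟩ := gain (half_pos t1)
  set γ := (σ2 - σ) / (1 - σ) * (1 / (2 * K) : ℝ) ^ (1 - σ2) with hγ
  have γ0 : 0 < γ := by positivity
  set η := γ * (1 - σ2) / 2 with hη
  have η0 : 0 < η := by positivity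
  obtain ⟨x1, hx⟩ := slow h0 (by linarith) η0
  set x0 := x1 + 1 with hx0
  obtain ⟨n2, hn2⟩ := eventually_atTop.1 (((tendsto_rpow_atTop t2).comp
    tendsto_natCast_atTop_atTop).eventually_gt_atTop (2 * ((2 + η) * x0) / γ))
  refine ⟨n1 + n2 + x0 * K, fun n hn c c1 hc A hA pA => ?_⟩
  set k := n / K with hk
  have k1 : x0 ≤ k := (Nat.le_div_iff_mul_le K1).2 (by omega)
  have k2 : k ≤ n := Nat.div_le_self _ _
  have c0 := half h0 (by linarith) (by omega) hc
  let u : ℕ → ℝ := fun i => (c + η - if i ∈ A then 1 else 0) * (i : ℝ) ^ (-σ)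
  have hU : ∀ m, x0 ≤ m → m ≤ n → 0 ≤ ∑ i ∈ Ioc 0 m, u i := by
    intro m a b
    rw [Usum, sub_nonneg]
    exact hx m (by omega) n b c (by linarith) c1 hc _ inter_subset_right (pA.mono inter_subset_left)
  set κ := (σ2 - σ) / (1 - σ) * (k : ℝ) ^ (1 - σ - (σ2 - σ)) with hκ
  have kr : (0 : ℝ) < k := by exact_mod_cast (by omega : 0 < k)
  have nr : (0 : ℝ) < n := by exact_mod_cast (by omega : 0 < n)
  have a1 := abel u (fun m => (m : ℝ) ^ (-(σ2 - σ))) k1 (fun m a _ =>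
    Real.rpow_le_rpow_of_nonpos (by exact_mod_cast (by omega : 0 < m)) (by push_cast; linarith)
      (by linarith)) (fun m a b => hU m a (by omega))
  have a2 := abel u (fun m => (m : ℝ) ^ (-(σ2 - σ)) - κ * (m : ℝ) ^ (-(1 - σ))) k2 (fun m a _ =>
    wanti t3 (by linarith) kr (by exact_mod_cast a) (by push_cast; linarith))
      (fun m a b => hU m (by omega) b)
  have mul : ∀ (I : Finset ℕ) (t : ℝ), 0 ∉ I → ∑ i ∈ I, u i * (i : ℝ) ^ (-(t - σ)) =
      (c + η) * S t I - S t (A ∩ I) := by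
    intro I t h
    rw [← Usum]
    refine sum_congr rfl fun i hi => ?_
    have : (0 : ℝ) < i := by exact_mod_cast Nat.pos_of_ne_zero fun e => h (e ▸ hi)
    simp only [u]
    rw [mul_assoc, ← Real.rpow_add this]; ring_nf
  have κ0 : 0 ≤ κ := by positivity
  have w0 : 0 ≤ (n : ℝ) ^ (-(σ2 - σ)) - κ * (n : ℝ) ^ (-(1 - σ)) := by
    have : κ ≤ (n : ℝ) ^ (1 - σ - (σ2 - σ)) := by
      refine (mul_le_of_le_one_left (by positivity) ((div_le_one t1).2 (by linarith))).trans ?_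
      gcongr
      linarith
    rw [sub_nonneg, show -(σ2 - σ) = (1 - σ - (σ2 - σ)) + -(1 - σ) by ring, Real.rpow_add nr]
    gcongr
  have g1 : 1 ≤ ∑ i ∈ Ioc k n, u i * (i : ℝ) ^ (-(1 - σ)) := by
    rw [mul _ _ (by simp)]
    have := hK n (by omega) A hA pA
    have s0 := S_nonneg 1 (Ioc k n)
    simp only [S, Real.rpow_neg_one, ← one_div] at s0 ⊢
    nlinarith
  have g2 : γ * (n : ℝ) ^ (1 - σ2) ≤ κ := by
    rw [hγ, hκ, mul_assoc, ← Real.mul_rpow (by positivity) nr.le,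
      show 1 - σ - (σ2 - σ) = 1 - σ2 by ring]
    gcongr
    rw [one_div_mul_eq_div, div_le_iff₀ (by positivity)]
    have := Nat.lt_div_mul_add (a := n) K1
    have : n ≤ k * (2 * K) := by nlinarith [Nat.mul_le_mul_right K (show 1 ≤ k by omega)]
    exact_mod_cast this
  have one : ∀ t : ℝ, 0 ≤ t → ∀ I ⊆ Ioc 0 x0, S t I ≤ x0 := by
    intro t ht I hI
    refine (S_mono t hI).trans ((sum_le_card_nsmul _ _ 1 fun a ha => ?_).trans (by simp))
    exact Real.rpow_le_one_of_one_le_of_nonpos (by exact_mod_cast (mem_Ioc.1 ha).1) (by linarith)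
  have g3 : -(x0 : ℝ) ≤ ∑ i ∈ Ioc 0 x0, u i * (i : ℝ) ^ (-(σ2 - σ)) := by
    rw [mul _ _ (by simp)]
    have := one σ2 (by linarith) _ (inter_subset_right (s₁ := A))
    have := mul_nonneg (show 0 ≤ c + η by linarith) (S_nonneg σ2 (Ioc 0 x0))
    linarith
  have g4 : (x0 : ℝ) ^ (-(σ2 - σ)) * ∑ i ∈ Ioc 0 x0, u i ≤ (1 + η) * x0 := by
    refine (mul_le_of_le_one_left (hU _ le_rfl (by omega)) (Real.rpow_le_one_of_one_le_of_nonpos
      (by exact_mod_cast (by omega : 1 ≤ x0)) (by linarith))).trans ?_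
    rw [Usum]
    have := one σ h0 _ subset_rfl
    have := S_nonneg σ (A ∩ Ioc 0 x0)
    have := S_nonneg σ (Ioc 0 x0)
    nlinarith
  have g5 := mul (Ioc 0 n) σ2 (by simp)
  rw [← sum_Ioc_consecutive _ (Nat.zero_le k) k2, ← sum_Ioc_consecutive _ (Nat.zero_le x0) k1,
    inter_eq_left.2 (show A ⊆ Ioc 0 n from hA)] at g5
  have g6 := T_le (by linarith) h1 n
  have g7 := hn2 n (by omega)
  simp only [Function.comp, gt_iff_lt, div_lt_iff₀ γ0] at g7
  have g8 := mul_nonneg w0 (hU n (by omega) le_rfl)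
  have g9 := mul_nonneg (mul_nonneg κ0 (show 0 ≤ (k : ℝ) ^ (-(1 - σ)) by positivity)) (hU k k1 k2)
  simp only [mul_sub, sum_sub_distrib, mul_left_comm _ κ, ← mul_sum] at a2
  have g10 := mul_le_mul_of_nonneg_left g1 κ0
  have g11 : η * S σ2 (Icc 1 n) ≤ γ / 2 * (n : ℝ) ^ (1 - σ2) := by
    rw [hη]; nlinarith
  rw [show Ioc 0 n = Icc 1 n from rfl] at g5
  nlinarith

end Pool.Agent.H.MP_def192_nt
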